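import Pool.Agent.W941.MG.Stm
import Pool.Agent.W683.RP.PR

/-!
Project MG (MP_499dc6_lc), part RANK: a function with diagonal support is not in the span of few
products.
-/

set_option autoImplicit false

namespace Pool.Agent.W125.MG

open Pool.Agent.W941.MG
open Pool.Agent.W941.RP (Dep PRStmt)

variable {b n : ℕ} {N : Type}

theorem dep_mono {ι : Type} {S T : Finset ι} {F : (ι → N) → ℂ} (h : S ⊆ T) (hF : Dep S F) :
    Dep T F := fun x y hxy => hF x y fun j hj => hxy j (h hj)

theorem dep_mul {ι : Type} {S : Finset ι} {F G : (ι → N) → ℂ} (hF : Dep S F) (hG : Dep S G) :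
    Dep S (fun x => F x * G x) := fun x y hxy => by
  show F x * G x = F y * G y
  rw [hF x y hxy, hG x y hxy]

theorem dep_zero {ι : Type} {S : Finset ι} : Dep S (fun _ : ι → N => (0 : ℂ)) :=
  fun _ _ _ => rfl

theorem dep_ind (A : Fin b → N → Finset (Fin n)) (S : Fin b → Finset (Fin n))
    (T : Finset (Fin b)) (h : ∀ i, i ∉ T → S i = ∅) : Dep T (ind A S) := by
  intro x y hxy
  unfold ind
  have e : (∀ j, S j ⊆ A j (x j)) ↔ ∀ j, S j ⊆ A j (y j) := by
    refine forall_congr' fun j => ?_
    by_cases hj : j ∈ T
    · rw [hxy j hj]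
    · rw [h j hj]
      simp
  simp only [e]

/-- functions of bounded degree depend on the coordinates of positive degree -/
theorem dep_fl (A : Fin b → N → Finset (Fin n)) (a : Fin b →₀ ℕ) {F : (Fin b → N) → ℂ}
    (hF : F ∈ Fl A a) : Dep (Finset.univ.filter fun i => a i ≠ 0) F := by
  unfold Fl at hF
  induction hF using Submodule.span_induction with
  | mem F h =>
    obtain ⟨S, hS, rfl⟩ := h
    apply dep_ind
    intro i hi
    simp only [Finset.mem_filter, Finset.mem_univ, true_and, not_not] at hi
    have := hS i
    rw [hi] at this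
    exact Finset.card_eq_zero.1 (Nat.le_zero.1 this)
  | zero => exact fun _ _ _ => rfl
  | add F G _ _ h1 h2 =>
    intro x y hxy
    rw [Pi.add_apply, Pi.add_apply, h1 x y hxy, h2 x y hxy]
  | smul c F _ h1 =>
    intro x y hxy
    rw [Pi.smul_apply, Pi.smul_apply, h1 x y hxy]

open Classical in
/-- the indicator of `C ⊆ A j (x j)` -/
noncomputable def one (A : Fin b → N → Finset (Fin n)) (j : Fin b) (C : Finset (Fin n)) :
    (Fin b → N) → ℂ := fun x => if C ⊆ A j (x j) then 1 else 0

theorem dep_one (A : Fin b → N → Finset (Fin n)) (j : Fin b) (C : Finset (Fin n))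
    (T : Finset (Fin b)) (h : j ∈ T) : Dep T (one A j C) := by
  intro x y hxy
  unfold one
  rw [hxy j h]

/-- the expansion in the coordinate `j` -/
theorem fl_split (A : Fin b → N → Finset (Fin n)) (a : Fin b →₀ ℕ) (j : Fin b) (c : ℕ)
    (hc : a j ≤ c) {F : (Fin b → N) → ℂ} (hF : F ∈ Fl A a) :
    ∃ P : Finset (Fin n) → (Fin b → N) → ℂ,
      (∀ C, Dep (Finset.univ.filter fun i => i ≠ j ∧ a i ≠ 0) (P C)) ∧
      ∀ x, F x = ∑ C ∈ Finset.univ.filter (fun C : Finset (Fin n) => C.card ≤ c),
        one A j C x * P C x := by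
  classical
  unfold Fl at hF
  induction hF using Submodule.span_induction with
  | mem F h =>
    obtain ⟨S, hS, rfl⟩ := h
    refine ⟨fun C => if C = S j then ind A (Function.update S j ∅) else 0, ?_, ?_⟩
    · intro C
      beta_reduce
      by_cases hC : C = S j
      · rw [if_pos hC]
        apply dep_ind
        intro i hi
        by_cases hij : i = j
        · rw [hij, Function.update_self]
        · rw [Function.update_of_ne hij]
          simp only [Finset.mem_filter, Finset.mem_univ, true_and, not_and, not_not] at hi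
          have := hS i
          rw [hi hij] at this
          exact Finset.card_eq_zero.1 (Nat.le_zero.1 this)
      · rw [if_neg hC]
        exact fun _ _ _ => rfl
    · intro x
      rw [Finset.sum_eq_single_of_mem (S j)]
      · beta_reduce
        rw [if_pos rfl]
        unfold ind one
        by_cases h1 : S j ⊆ A j (x j)
        · rw [if_pos h1, one_mul]
          congr 1
          apply propext
          constructor
          · intro h i
            by_cases hij : i = j
            · subst hij
              rw [Function.update_self]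
              exact Finset.empty_subset _
            · rw [Function.update_of_ne hij]
              exact h i
          · intro h i
            by_cases hij : i = j
            · subst hij
              exact h1
            · have := h i
              rwa [Function.update_of_ne hij] at this
        · rw [if_neg h1, zero_mul, if_neg]
          exact fun h => h1 (h j)
      · rw [Finset.mem_filter]
        exact ⟨Finset.mem_univ _, (hS j).trans hc⟩
      · intro C _ hC
        beta_reduce
        rw [if_neg hC, Pi.zero_apply, mul_zero]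
  | zero =>
    refine ⟨fun _ _ => 0, fun _ _ _ _ => rfl, fun x => ?_⟩
    simp
  | add F G _ _ h1 h2 =>
    obtain ⟨P, hP1, hP2⟩ := h1
    obtain ⟨Q, hQ1, hQ2⟩ := h2
    refine ⟨fun C x => P C x + Q C x, fun C x y hxy => ?_, fun x => ?_⟩
    · show P C x + Q C x = P C y + Q C y
      rw [hP1 C x y hxy, hQ1 C x y hxy]
    · rw [Pi.add_apply, hP2, hQ2, ← Finset.sum_add_distrib]
      exact Finset.sum_congr rfl fun C _ => by ring
  | smul r F _ h1 =>
    obtain ⟨P, hP1, hP2⟩ := h1
    refine ⟨fun C x => r * P C x, fun C x y hxy => ?_, fun x => ?_⟩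
    · show r * P C x = r * P C y
      rw [hP1 C x y hxy]
    · rw [Pi.smul_apply, hP2, smul_eq_mul, Finset.mul_sum]
      exact Finset.sum_congr rfl fun C _ => by ring

/-- one product -/
theorem term (A : Fin b → N → Finset (Fin n)) (M a a' : Fin b →₀ ℕ) (j : Fin b)
    (F G : (Fin b → N) → ℂ) (hM : a + a' = M) (hF : F ∈ Fl A a) (hG : G ∈ Fl A a')
    (h0 : ∀ i, i ≠ j → a i = 0 ∨ a' i = 0) (h1 : ∃ i, i ≠ j ∧ a i ≠ 0) (h2 : ∃ i, a i = 0) :
    ∃ (S : Finset (Fin b)) (P Q : Finset (Fin n) → (Fin b → N) → ℂ), S ≠ ∅ ∧ S ≠ Finset.univ ∧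
      (∀ C, Dep S (P C)) ∧ (∀ C, Dep Sᶜ (Q C)) ∧
      ∀ x, F x * G x = ∑ C ∈ Finset.univ.filter (fun C : Finset (Fin n) => C.card ≤ M j / 2),
        P C x * Q C x := by
  classical
  obtain ⟨i1, hi1, hi1'⟩ := h1
  obtain ⟨i2, hi2⟩ := h2
  have hMj : a j + a' j = M j := by rw [← hM]; rfl
  by_cases hj : a j = 0 ∨ a' j = 0
  · have h0' : ∀ i, a i = 0 ∨ a' i = 0 := by
      intro i
      by_cases hij : i = j
      · rw [hij]; exact hj
      · exact h0 i hij
    refine ⟨Finset.univ.filter fun i => a i ≠ 0, fun C => if C = ∅ then F else fun _ => 0,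
      fun C => if C = ∅ then G else fun _ => 0, ?_, ?_, ?_, ?_, ?_⟩
    · exact Finset.ne_empty_of_mem (Finset.mem_filter.2 ⟨Finset.mem_univ i1, hi1'⟩)
    · intro h
      have := Finset.mem_univ i2
      rw [← h, Finset.mem_filter] at this
      exact this.2 hi2
    · intro C
      show Dep _ (if C = ∅ then F else fun _ => 0)
      split_ifs
      · exact dep_fl A a hF
      · exact dep_zero
    · intro C
      show Dep _ (if C = ∅ then G else fun _ => 0)
      split_ifs
      · refine dep_mono ?_ (dep_fl A a' hG)
        intro i hi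
        rw [Finset.mem_filter] at hi
        rw [Finset.mem_compl, Finset.mem_filter]
        rintro ⟨-, h3⟩
        rcases h0' i with h | h
        · exact h3 h
        · exact hi.2 h
      · exact dep_zero
    · intro x
      rw [Finset.sum_eq_single_of_mem ∅]
      · simp
      · rw [Finset.mem_filter]
        exact ⟨Finset.mem_univ _, by simp⟩
      · intro C _ hC
        simp [hC]
  · rw [not_or] at hj
    rcases le_or_gt (a j) (M j / 2) with hle | hlt
    · obtain ⟨P, hP1, hP2⟩ := fl_split A a j (M j / 2) hle hF
      refine ⟨Finset.univ.filter fun i => i ≠ j ∧ a i ≠ 0, P, fun C x => one A j C x * G x,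
        ?_, ?_, hP1, ?_, ?_⟩
      · exact Finset.ne_empty_of_mem (Finset.mem_filter.2 ⟨Finset.mem_univ i1, hi1, hi1'⟩)
      · intro h
        have := Finset.mem_univ j
        rw [← h, Finset.mem_filter] at this
        exact this.2.1 rfl
      · intro C
        refine dep_mul (dep_one A j C _ ?_) (dep_mono ?_ (dep_fl A a' hG))
        · rw [Finset.mem_compl, Finset.mem_filter]
          exact fun h => h.2.1 rfl
        · intro i hi
          rw [Finset.mem_filter] at hi
          rw [Finset.mem_compl, Finset.mem_filter]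
          rintro ⟨-, h3, h4⟩
          rcases h0 i h3 with h | h
          · exact h4 h
          · exact hi.2 h
      · intro x
        rw [hP2, Finset.sum_mul]
        exact Finset.sum_congr rfl fun C _ => by ring
    · obtain ⟨P, hP1, hP2⟩ := fl_split A a' j (M j / 2) (by omega) hG
      refine ⟨Finset.univ.filter fun i => a i ≠ 0, fun C x => F x * one A j C x, P,
        ?_, ?_, ?_, ?_, ?_⟩
      · exact Finset.ne_empty_of_mem (Finset.mem_filter.2 ⟨Finset.mem_univ i1, hi1'⟩)
      · intro h
        have := Finset.mem_univ i2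
        rw [← h, Finset.mem_filter] at this
        exact this.2 hi2
      · intro C
        refine dep_mul (dep_fl A a hF) (dep_one A j C _ ?_)
        rw [Finset.mem_filter]
        exact ⟨Finset.mem_univ _, hj.1⟩
      · intro C
        refine dep_mono ?_ (hP1 C)
        intro i hi
        rw [Finset.mem_filter] at hi
        rw [Finset.mem_compl, Finset.mem_filter]
        rintro ⟨-, h3⟩
        rcases h0 i hi.2.1 with h | h
        · exact h3 h
        · exact hi.2.2 h
      · intro x
        rw [hP2, Finset.mul_sum]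
        exact Finset.sum_congr rfl fun C _ => by ring

theorem rank_stmt : RankStmt := by
  classical
  intro b n N K _ _ A M D f j a a' F hf hD hM hF h0 h1 h2 hspan
  -- the function as a sum of products
  obtain ⟨G, hG, hfG⟩ : ∃ G : K → (Fin (b + 1) → N) → ℂ, (∀ κ, G κ ∈ Fl A (a' κ)) ∧
      f = ∑ κ, F κ * G κ := by
    clear hf
    induction hspan using Submodule.span_induction with
    | mem f h =>
      obtain ⟨κ, G, hG, rfl⟩ := h
      refine ⟨fun κ' => if κ' = κ then G else 0, ?_, ?_⟩
      · intro κ'
        by_cases h : κ' = κ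
        · subst h
          simpa using hG
        · simp only [if_neg h]
          exact Submodule.zero_mem _
      · rw [Finset.sum_eq_single_of_mem κ (Finset.mem_univ _)]
        · beta_reduce
          rw [if_pos rfl]
        · intro κ' _ h
          beta_reduce
          rw [if_neg h, mul_zero]
    | zero =>
      refine ⟨fun _ => 0, fun κ => Submodule.zero_mem _, ?_⟩
      simp
    | add f g _ _ h1 h2 =>
      obtain ⟨P, hP1, rfl⟩ := h1
      obtain ⟨Q, hQ1, rfl⟩ := h2
      refine ⟨fun κ => P κ + Q κ, fun κ => Submodule.add_mem _ (hP1 κ) (hQ1 κ), ?_⟩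
      rw [← Finset.sum_add_distrib]
      exact Finset.sum_congr rfl fun κ _ => by rw [mul_add]
    | smul r f _ h1 =>
      obtain ⟨P, hP1, rfl⟩ := h1
      refine ⟨fun κ => r • P κ, fun κ => Submodule.smul_mem _ _ (hP1 κ), ?_⟩
      rw [Finset.smul_sum]
      exact Finset.sum_congr rfl fun κ _ => by rw [mul_smul_comm]
  have hterm := fun κ => term A M (a κ) (a' κ) (j κ) (F κ) (G κ) (hM κ) (hF κ) (hG κ) (h0 κ)
    (h1 κ) (h2 κ)
  choose S P Q hS1 hS2 hP hQ hPQ using hterm
  have key := Pool.Agent.W683.RP.pr b N (Σ κ : K, {C : Finset (Fin n) // C.card ≤ M (j κ) / 2}) f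
    (fun i => S i.1) (fun i => P i.1 i.2.1) (fun i => Q i.1 i.2.1) hf (fun i => hS1 i.1)
    (fun i => hS2 i.1) (fun i => hP i.1 i.2.1) (fun i => hQ i.1 i.2.1) (by
      intro x
      rw [hfG, Finset.sum_apply, Fintype.sum_sigma]
      refine Finset.sum_congr rfl fun κ _ => ?_
      rw [Pi.mul_apply, hPQ κ x]
      exact (Finset.sum_subtype _ (fun C => by simp) _))
  refine key.trans ?_
  rw [Fintype.card_sigma]
  calc ∑ κ : K, Fintype.card {C : Finset (Fin n) // C.card ≤ M (j κ) / 2}
      ≤ ∑ κ : K, D := by
        refine Finset.sum_le_sum fun κ _ => ?_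
        rw [Fintype.card_subtype]
        exact hD (j κ)
    _ = Fintype.card K * D := by
        rw [Finset.sum_const, Finset.card_univ, smul_eq_mul]

end Pool.Agent.W125.MG
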